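import Pool.Agent.H4K.Steps

/-!
# Convergence of the cubic averages: roots and direct integrals (helper4)
-/

set_option autoImplicit false

open Filter Topology MeasureTheory ProbabilityTheory
open scoped ENNReal

namespace Pool.Agent.H4K

open Pool.Agent.W761.Tail (A term Cvg term_meas A_meas A_bound term_bound)
open Pool.Agent.W761.Gauss (BM)

/-- the sum over a multiple of `k` -/
lemma sum_mul_res (a : ℕ → ℂ) (k M : ℕ) :
    ∑ n ∈ Finset.range (k * M), a n = ∑ r ∈ Finset.range k, ∑ q ∈ Finset.range M, a (k * q + r) := by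
  rw [Finset.sum_comm]
  induction M with
  | zero => simp
  | succ M ih => rw [Nat.mul_succ, Finset.sum_range_add, ih, Finset.sum_range_succ]

/-- averages over the residue classes -/
lemma tendsto_res {a : ℕ → ℂ} {C : ℝ} (ha : ∀ n, ‖a n‖ ≤ C) {k : ℕ} (hk : 0 < k)
    (h : ∀ r < k, ∃ L, Tendsto (A fun q => a (k * q + r)) atTop (𝓝 L)) : ∃ L, Tendsto (A a) atTop (𝓝 L) := by
  have hC : 0 ≤ C := (norm_nonneg _).trans (ha 0)
  have h' : ∀ r : ℕ, ∃ L, r < k → Tendsto (A fun q => a (k * q + r)) atTop (𝓝 L) := by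
    intro r
    by_cases hr : r < k
    · obtain ⟨L, hL⟩ := h r hr
      exact ⟨L, fun _ => hL⟩
    · exact ⟨0, fun hr' => absurd hr' hr⟩
  choose L hL using h'
  have hM : Tendsto (fun N : ℕ => N / k) atTop atTop := Nat.tendsto_div_const_atTop hk.ne'
  refine ⟨(k : ℂ)⁻¹ * ∑ r ∈ Finset.range k, L r, ?_⟩
  have h1 : Tendsto (fun N : ℕ => (k : ℂ)⁻¹ * ∑ r ∈ Finset.range k, A (fun q => a (k * q + r)) (N / k)) atTop
      (𝓝 ((k : ℂ)⁻¹ * ∑ r ∈ Finset.range k, L r)) := by
    refine Tendsto.const_mul _ (tendsto_finsetSum _ fun r hr => ?_)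
    exact (hL r (Finset.mem_range.1 hr)).comp hM
  have h2 : ∀ N : ℕ, k ≤ N →
      ‖A a N - (k : ℂ)⁻¹ * ∑ r ∈ Finset.range k, A (fun q => a (k * q + r)) (N / k)‖ ≤ 2 * k * C / N := by
    intro N hN
    set M := N / k with hMd
    have hM0 : 0 < M := Nat.div_pos hN hk
    have hN0 : 0 < N := lt_of_lt_of_le hk hN
    obtain ⟨s, hs⟩ : ∃ s, N = k * M + s := ⟨N % k, (Nat.div_add_mod N k).symm⟩
    have hsk : s < k := by
      have h3 := Nat.mod_lt N hk
      have h4 := Nat.div_add_mod N k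
      have : s = N % k := by
        have : k * M + s = k * M + N % k := by rw [← hs, hMd]; exact h4.symm
        omega
      omega
    have hNC : (N : ℂ) ≠ 0 := by exact_mod_cast hN0.ne'
    have hMC : (M : ℂ) ≠ 0 := by exact_mod_cast hM0.ne'
    have hkC : (k : ℂ) ≠ 0 := by exact_mod_cast hk.ne'
    set S := ∑ n ∈ Finset.range (k * M), a n with hS
    have e1 : (k : ℂ)⁻¹ * ∑ r ∈ Finset.range k, A (fun q => a (k * q + r)) M = ((k : ℂ) * M)⁻¹ * S := by
      rw [hS, sum_mul_res]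
      unfold A
      rw [← Finset.mul_sum, mul_inv]
      ring
    have e2 : A a N = (N : ℂ)⁻¹ * (S + ∑ x ∈ Finset.range s, a (k * M + x)) := by
      unfold A
      conv_lhs => rw [hs, Finset.sum_range_add]
      rw [← hs]
    have e3 : A a N - ((k : ℂ) * M)⁻¹ * S =
        (N : ℂ)⁻¹ * ∑ x ∈ Finset.range s, a (k * M + x) - ((N : ℂ)⁻¹ * (s : ℂ)) * (((k : ℂ) * M)⁻¹ * S) := by
      rw [e2]
      have hs' : (s : ℂ) = N - k * M := by
        rw [hs]
        push_cast
        ring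
      rw [hs']
      field_simp
      ring
    rw [e1, e3]
    have n1 : ‖∑ x ∈ Finset.range s, a (k * M + x)‖ ≤ s * C := by
      refine (norm_sum_le _ _).trans ((Finset.sum_le_sum fun x _ => ha _).trans ?_)
      rw [Finset.sum_const, Finset.card_range, nsmul_eq_mul]
    have n2 : ‖((k : ℂ) * M)⁻¹ * S‖ ≤ C := by
      have h5 := A_bound ha (k * M)
      unfold A at h5
      push_cast at h5
      exact h5
    have hNR : (0 : ℝ) < N := by exact_mod_cast hN0
    have hsR : (s : ℝ) ≤ k := by exact_mod_cast hsk.le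
    calc ‖(N : ℂ)⁻¹ * ∑ x ∈ Finset.range s, a (k * M + x) - ((N : ℂ)⁻¹ * (s : ℂ)) * (((k : ℂ) * M)⁻¹ * S)‖
        ≤ ‖(N : ℂ)⁻¹ * ∑ x ∈ Finset.range s, a (k * M + x)‖ + ‖((N : ℂ)⁻¹ * (s : ℂ)) * (((k : ℂ) * M)⁻¹ * S)‖ :=
          norm_sub_le _ _
      _ ≤ (N : ℝ)⁻¹ * (s * C) + ((N : ℝ)⁻¹ * s) * C := by
          refine add_le_add ?_ ?_
          · rw [norm_mul, norm_inv, Complex.norm_natCast]
            exact mul_le_mul_of_nonneg_left n1 (by positivity)
          · rw [norm_mul, norm_mul, norm_inv, Complex.norm_natCast, Complex.norm_natCast]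
            exact mul_le_mul_of_nonneg_left n2 (by positivity)
      _ ≤ 2 * k * C / N := by
          rw [div_eq_inv_mul]
          have h6 : (s : ℝ) * C ≤ k * C := mul_le_mul_of_nonneg_right hsR hC
          have h7 : (0 : ℝ) ≤ (N : ℝ)⁻¹ := by positivity
          nlinarith [mul_le_mul_of_nonneg_left h6 h7]
  have h3 : Tendsto (fun N : ℕ => 2 * (k : ℝ) * C / N) atTop (𝓝 0) := tendsto_const_div_atTop_nhds_zero_nat _
  have h4 : Tendsto (fun N : ℕ => A a N - (k : ℂ)⁻¹ * ∑ r ∈ Finset.range k, A (fun q => a (k * q + r)) (N / k))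
      atTop (𝓝 0) := by
    refine squeeze_zero_norm' ?_ h3
    filter_upwards [eventually_ge_atTop k] with N hN
    exact h2 N hN
  have h5 := h4.add h1
  rw [zero_add] at h5
  exact h5.congr fun N => by ring

/-- a shift does not matter -/
lemma tendsto_shift {u : ℕ → ℂ} {C : ℝ} (hu : ∀ n, ‖u n‖ ≤ C) {L : ℂ}
    (h : Tendsto (A fun n => u (n + 1)) atTop (𝓝 L)) : Tendsto (A u) atTop (𝓝 L) := by
  have h1 : ∀ N : ℕ, ‖A u N - A (fun n => u (n + 1)) N‖ ≤ 2 * C / N := by
    intro N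
    have e : A u N - A (fun n => u (n + 1)) N = (N : ℂ)⁻¹ * (u 0 - u N) := by
      unfold A
      rw [← mul_sub]
      congr 1
      have h2 := Finset.sum_range_succ u N
      have h3 := Finset.sum_range_succ' u N
      rw [h2] at h3
      linear_combination h3
    rw [e, norm_mul, norm_inv, Complex.norm_natCast, div_eq_inv_mul]
    refine mul_le_mul_of_nonneg_left ?_ (by positivity)
    exact (norm_sub_le _ _).trans (by linarith [hu 0, hu N])
  have h3 : Tendsto (fun N : ℕ => 2 * C / (N : ℝ)) atTop (𝓝 0) := tendsto_const_div_atTop_nhds_zero_nat _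
  have h4 := (squeeze_zero_norm h1 h3).add h
  rw [zero_add] at h4
  exact h4.congr fun N => by ring

/-- **Roots.** -/
theorem root_step {X : Type} [mX : MeasurableSpace X] {μ : Measure X} {T : X → X} (hT : Measurable T) {k : ℕ}
    (hk : 0 < k) {m : ℕ} (h : CvM μ (T^[k]) m mX) : CvM μ T m mX := by
  intro f hf hfb
  choose C hC using hfb
  set D : ℝ := ∑ j, |C j| with hD
  have hfD : ∀ j x, ‖f j x‖ ≤ D := fun j x => ((hC j x).trans (le_abs_self _)).trans
    (Finset.single_le_sum (f := fun j => |C j|) (fun _ _ => abs_nonneg _) (Finset.mem_univ j))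
  have h1 : ∀ᵐ x ∂μ, ∀ r : ℕ, ∃ L, Tendsto (A fun n =>
      term (T^[k]) (fun j => f j ∘ T^[((j : ℕ) + 1) * (r + 1)]) n x) atTop (𝓝 L) := by
    rw [ae_all_iff]
    intro r
    exact h _ (fun j => (hf j).comp (hT.iterate _)) fun j => ⟨C j, fun x => hC j _⟩
  filter_upwards [h1] with x hx
  refine tendsto_res (C := D ^ m) (fun n => term_bound hfD n x) hk fun r _ => ?_
  obtain ⟨L, hL⟩ := hx r
  refine ⟨L, tendsto_shift (C := D ^ m) (fun n => term_bound hfD _ x) ?_⟩
  refine hL.congr fun N => ?_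
  congr 1
  funext n
  unfold term
  refine Finset.prod_congr rfl fun j _ => ?_
  show f j (T^[((j : ℕ) + 1) * (r + 1)] ((T^[k])^[((j : ℕ) + 1) * (n + 1)] x)) = _
  rw [← Function.iterate_mul, ← Function.iterate_add_apply]
  congr 2
  ring

/-- **Direct integrals.** -/
theorem bind_step {X Ω : Type} [mX : MeasurableSpace X] [MeasurableSpace Ω] {μ : Measure X} {P : Measure Ω}
    {κ : Kernel Ω X} (hμ : μ = P.bind κ) {T : X → X} (hT : Measurable T) {m : ℕ} {f : Fin m → X → ℂ}
    (hf : ∀ j, Measurable (f j)) (h : ∀ᵐ ω ∂P, Cvg (κ ω) T f) : Cvg μ T f := by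
  have hms : MeasurableSet {z | ∃ L : ℂ, Tendsto (A fun n => term T f n z) atTop (𝓝 L)} :=
    measurableSet_exists_tendsto fun N => A_meas (fun n => term_meas hT hf n) N
  have h1 : μ {z | ∃ L : ℂ, Tendsto (A fun n => term T f n z) atTop (𝓝 L)}ᶜ = 0 := by
    rw [hμ, Measure.bind_apply hms.compl κ.measurable.aemeasurable]
    have h2 : ∀ᵐ ω ∂P, κ ω {z | ∃ L : ℂ, Tendsto (A fun n => term T f n z) atTop (𝓝 L)}ᶜ = 0 := by
      filter_upwards [h] with ω hω
      exact hω
    rw [lintegral_congr_ae h2, lintegral_zero]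
  exact h1

end Pool.Agent.H4K
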