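import Pool.Agent.H80IE.Tower2
import Pool.Agent.TH290.RM.Base

/-!
# Convergence of the cubic averages along towers of extensions: the steps (helper4)

`CvM μ T m 𝓐`: the averages along `n, 2 n, …, m n` converge almost everywhere for all bounded functions which are
measurable with respect to the σ-algebra `𝓐`.
-/

set_option autoImplicit false

open Filter Topology MeasureTheory symmDiff
open scoped ENNReal

namespace Pool.Agent.H4K

open Pool.Agent.W761.Tail (A term Cvg term_meas A_meas Cvg_congr Cvg_factor W IsExhaustive aesm_of_sets trunc_meas)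
open Pool.Agent.W761.Gauss (BM)
open Pool.Agent.TH739.PS (sk IsPoissonExtension SummableOverlaps ConvAll)
open Pool.Agent.TH290.RM (IsMixingExtension)

/-- convergence for bounded functions measurable for a σ-algebra -/
def CvM {X : Type} {mX : MeasurableSpace X} (μ : Measure X) (T : X → X) (m : ℕ) (𝓐 : MeasurableSpace X) : Prop :=
  ∀ f : Fin m → X → ℂ, (∀ j, Measurable[𝓐] (f j)) → (∀ j, ∃ C : ℝ, ∀ x, ‖f j x‖ ≤ C) → @Cvg X mX m μ T f

/-- the terms of the sum from `1` to `N` -/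
lemma A_eq {X : Type} (T : X → X) {m : ℕ} (f : Fin m → X → ℂ) (N : ℕ) (x : X) :
    A (fun n => term T f n x) N = (N : ℂ)⁻¹ * ∑ n ∈ Finset.Icc 1 N, ∏ j : Fin m, f j (T^[((j : ℕ) + 1) * n] x) := by
  rw [A]
  congr 1
  have h5 := Finset.sum_Ico_add' (fun n => ∏ j : Fin m, f j (T^[((j : ℕ) + 1) * n] x)) 0 N 1
  rw [Finset.range_eq_Ico]
  exact h5

/-- functions measurable for a σ-algebra contained in `𝓑` up to null sets -/
lemma exists_mod {X : Type} {𝓑 𝓓 : MeasurableSpace X} [mX : MeasurableSpace X] {μ : Measure X}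
    [IsProbabilityMeasure μ] (h𝓑 : 𝓑 ≤ mX) (h𝓓 : 𝓓 ≤ mX)
    (h : ∀ B, MeasurableSet[𝓓] B → ∃ D, MeasurableSet[𝓑] D ∧ B =ᵐ[μ] D) {f : X → ℂ} (hf : Measurable[𝓓] f)
    {C : ℝ} (hC : ∀ x, ‖f x‖ ≤ C) : ∃ g : X → ℂ, Measurable[𝓑] g ∧ (∀ x, ‖g x‖ ≤ |C|) ∧ f =ᵐ[μ] g := by
  obtain ⟨v, hv, e⟩ := aesm_of_sets (μ := μ) h𝓓 h𝓑 h hf hC
  refine ⟨fun x => if ‖v x‖ ≤ C then v x else 0, trunc_meas hv.measurable C, fun x => ?_, ?_⟩
  · show ‖if ‖v x‖ ≤ C then v x else 0‖ ≤ |C|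
    split_ifs with h
    · exact h.trans (le_abs_self _)
    · simp
  · filter_upwards [e] with x hx
    have hx' := hC x
    rw [hx] at hx'
    show f x = if ‖v x‖ ≤ C then v x else 0
    rw [if_pos hx', hx]

/-- σ-algebras up to null sets -/
theorem null_step {X : Type} {𝓑 𝓒 : MeasurableSpace X} [mX : MeasurableSpace X] {μ : Measure X}
    [IsProbabilityMeasure μ] {T : X → X} (hT : MeasurePreserving T μ μ) (h𝓑 : 𝓑 ≤ mX) (h𝓒 : 𝓒 ≤ mX)
    (h : ∀ B, MeasurableSet[𝓒] B → ∃ D, MeasurableSet[𝓑] D ∧ B =ᵐ[μ] D) {m : ℕ} (hc : CvM μ T m 𝓑) :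
    CvM μ T m 𝓒 := by
  intro f hf hfb
  choose C hC using hfb
  choose g hg hgC hfg using fun j => exists_mod (μ := μ) h𝓑 h𝓒 h (hf j) (hC j)
  exact Cvg_congr hT (fun j => (hfg j).symm) (hc g hg fun j => ⟨_, hgC j⟩)

/-- **K-extensions.** -/
theorem mix_step {X : Type} {𝓑 𝓒 𝓔 : MeasurableSpace X} [mX : MeasurableSpace X] {μ : Measure X}
    [IsProbabilityMeasure μ] {T : X → X} (hT : MeasurePreserving T μ μ) (h𝓑 : 𝓑 ≤ mX) (h𝓒 : 𝓒 ≤ mX)
    (hinv : ∀ B, MeasurableSet[𝓒] B → MeasurableSet[𝓒] (T ⁻¹' B)) (hE : 𝓔 ≤ 𝓒)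
    (hEinv : ∀ B, MeasurableSet[𝓔] B → MeasurableSet[𝓔] (T ⁻¹' B))
    (hgen : ∀ B, MeasurableSet[𝓒] B → ∀ ε : ℝ, 0 < ε → ∃ (k : ℕ) (C : Set X),
      MeasurableSet[𝓔] C ∧ μ.real ((T^[k] ⁻¹' B) ∆ C) ≤ ε)
    (htail : ∀ B, MeasurableSet[𝓒] B → (∀ k : ℕ, ∃ C, MeasurableSet[𝓔] C ∧ B =ᵐ[μ] T^[k] ⁻¹' C) →
      ∃ D, MeasurableSet[𝓑] D ∧ B =ᵐ[μ] D) {m : ℕ} (hc : CvM μ T m 𝓑) : CvM μ T m 𝓒 := by
  intro f hf hfb
  have hTC : Measurable[𝓒, 𝓒] T := hinv
  have hTk : ∀ (k : ℕ) (B : Set X), MeasurableSet[𝓒] B → MeasurableSet[𝓒] (T^[k] ⁻¹' B) := by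
    intro k
    induction k with
    | zero => exact fun B hB => hB
    | succ k ih =>
      intro B hB
      rw [Function.iterate_succ, Set.preimage_comp]
      exact hinv _ (ih B hB)
  let ν : @Measure X 𝓒 := μ.trim h𝓒
  have hνs : ∀ s, MeasurableSet[𝓒] s → ν s = μ s := fun s hs => trim_measurableSet_eq h𝓒 hs
  have hprob : @IsProbabilityMeasure X 𝓒 ν := by
    refine @IsProbabilityMeasure.mk X 𝓒 ν ?_
    rw [hνs _ (@MeasurableSet.univ X 𝓒)]
    exact measure_univ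
  have hTν : @MeasurePreserving X X 𝓒 𝓒 T ν ν := by
    refine @MeasurePreserving.mk X X 𝓒 𝓒 T ν ν hTC ?_
    refine @Measure.ext X 𝓒 _ _ fun s hs => ?_
    rw [@Measure.map_apply X X 𝓒 𝓒 ν T hTC s hs, hνs _ (hTC hs), hνs _ hs]
    exact hT.measure_preimage (h𝓒 s hs).nullMeasurableSet
  have hex : @IsExhaustive X 𝓒 ν T 𝓔 := by
    refine @IsExhaustive.mk X 𝓒 ν T 𝓔 hE hEinv fun B hB ε hε => ?_
    obtain ⟨k, C, hC, h1⟩ := hgen B hB ε hε
    refine ⟨k, C, hC, ?_⟩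
    have hm : MeasurableSet[𝓒] ((T^[k] ⁻¹' B) ∆ C) := @MeasurableSet.symmDiff X 𝓒 _ _ (hTk k B hB) (hE C hC)
    have h2 : @Measure.real X 𝓒 ν ((T^[k] ⁻¹' B) ∆ C) = μ.real ((T^[k] ⁻¹' B) ∆ C) := by
      unfold Measure.real
      rw [hνs _ hm]
    rw [h2]
    exact h1
  have hbase : ∀ f : Fin m → X → ℂ, (∀ l, @BM X 𝓒 (f l)) → (∀ l r, @W X 𝓒 ν T 𝓔 r (f l)) → @Cvg X 𝓒 m ν T f := by
    intro f hf hW
    -- functions of the tail
    have h1 : ∀ l, ∃ g : X → ℂ, Measurable[𝓑] g ∧ (∃ C : ℝ, ∀ x, ‖g x‖ ≤ C) ∧ f l =ᵐ[μ] g := by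
      intro l
      obtain ⟨hfm, C, hC⟩ := hf l
      obtain ⟨g, g1, g2, g3⟩ := exists_mod (μ := μ) (𝓓 := MeasurableSpace.comap (f l) inferInstance) h𝓑
        ((measurable_iff_comap_le.1 hfm).trans h𝓒) (by
          rintro _ ⟨U, hU, rfl⟩
          refine htail _ (hfm hU) fun k => ?_
          obtain ⟨w, hw, _, e⟩ := hW l k
          refine ⟨w ⁻¹' U, hw hU, ?_⟩
          filter_upwards [ae_eq_of_ae_eq_trim e] with x hx
          show (f l x ∈ U) = (w (T^[k] x) ∈ U)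
          rw [hx]
          rfl) (comap_measurable (f l)) hC
      exact ⟨g, g1, ⟨_, g2⟩, g3⟩
    choose g hg hgb hfg using h1
    have h2 : Cvg μ T f := Cvg_congr hT (fun j => (hfg j).symm) (hc g hg hgb)
    -- convergence for the trimmed measure
    have hms : MeasurableSet[𝓒] {z | ∃ L : ℂ, Tendsto (A fun n => term T f n z) atTop (𝓝 L)} := by
      refine @measurableSet_exists_tendsto ℕ ℂ X 𝓒 _ _ _ _ _ _ _ _ _ fun N => ?_
      exact @A_meas X 𝓒 _ (fun n => @term_meas X 𝓒 m T hTC f (fun j => (hf j).1) n) N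
    have h3 : ν {z | ∃ L : ℂ, Tendsto (A fun n => term T f n z) atTop (𝓝 L)}ᶜ = 0 := by
      rw [hνs _ (@MeasurableSet.compl X _ 𝓒 hms)]
      exact h2
    exact h3
  have hfin : @Cvg X 𝓒 m ν T f := @IsExhaustive.reduction X 𝓔 𝓒 ν m T hprob hex hTν hbase f fun l => ⟨hf l, hfb l⟩
  exact ae_of_ae_trim h𝓒 hfin

/-- **Skew products.** -/
theorem skew_step {X Y W : Type} {𝓑 𝓒 : MeasurableSpace X} [mX : MeasurableSpace X] [MeasurableSpace Y]
    [MeasurableSpace W] {μ : Measure X} [IsProbabilityMeasure μ] {T : X → X} (hT : MeasurePreserving T μ μ) (h𝓑 : 𝓑 ≤ mX)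
    (h𝓒 : 𝓒 ≤ mX) {S : Y → Y} {ψ : Y → W → W} {ν : Measure W} {π : X → Y} {τ : X → W} (hπ : Measurable π)
    (hτ : Measurable τ) (h1 : ∀ᵐ x ∂μ, π (T x) = S (π x)) (h2 : ∀ᵐ x ∂μ, τ (T x) = ψ (π x) (τ x))
    (h3 : μ.map (fun x => (π x, τ x)) = (μ.map π).prod ν) (hS : Measurable S)
    (hsk : MeasurePreserving (sk S ψ) ((μ.map π).prod ν) ((μ.map π).prod ν))
    (h4 : ∀ B, MeasurableSet B → ∃ D, MeasurableSet[𝓑] D ∧ π ⁻¹' B =ᵐ[μ] D)
    (h5 : ∀ B, MeasurableSet[𝓒] B → ∃ C : Set (Y × W), MeasurableSet C ∧ B =ᵐ[μ] (fun x => (π x, τ x)) ⁻¹' C)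
    {m : ℕ} (hstep : ConvAll m (μ.map π) S →
      ∀ g : Fin m → Y × W → ℂ, (∀ j, BM (g j)) → Cvg ((μ.map π).prod ν) (sk S ψ) g) (hc : CvM μ T m 𝓑) :
    CvM μ T m 𝓒 := by
  have hp : Measurable fun x => (π x, τ x) := hπ.prodMk hτ
  have hmp : MeasurePreserving (fun x => (π x, τ x)) μ ((μ.map π).prod ν) := ⟨hp, h3⟩
  have hmπ : MeasurePreserving π μ (μ.map π) := ⟨hπ, rfl⟩
  -- convergence on the base
  have hπ' : CvM μ T m (MeasurableSpace.comap π inferInstance) := by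
    refine null_step hT h𝓑 (measurable_iff_comap_le.1 hπ) ?_ hc
    rintro _ ⟨B, hB, rfl⟩
    exact h4 B hB
  have hbase : ConvAll m (μ.map π) S := by
    intro g hg hgb
    have h6 : Cvg μ T (fun j => g j ∘ π) := by
      refine hπ' _ (fun j => (hg j).comp (comap_measurable π)) fun j => ?_
      obtain ⟨C, hC⟩ := hgb j
      exact ⟨C, fun x => hC _⟩
    have h7 : Cvg (μ.map π) S g := (Cvg_factor hT hS hmπ h1 hg).1 h6
    filter_upwards [h7] with y hy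
    obtain ⟨L, hL⟩ := hy
    exact ⟨L, hL.congr fun N => A_eq S g N y⟩
  -- the extension
  have h8 : CvM μ T m (MeasurableSpace.comap (fun x => (π x, τ x)) inferInstance) := by
    intro f hf hfb
    choose C hC using hfb
    have h9 : ∀ j, ∃ g : Y × W → ℂ, BM g ∧ f j = g ∘ (fun x => (π x, τ x)) := by
      intro j
      obtain ⟨w, hw, e⟩ := (hf j).stronglyMeasurable.exists_eq_measurable_comp (mY := inferInstance)
      refine ⟨fun z => if ‖w z‖ ≤ C j then w z else 0, ⟨trunc_meas hw.measurable (C j), |C j|, fun z => ?_⟩, ?_⟩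
      · show ‖if ‖w z‖ ≤ C j then w z else 0‖ ≤ |C j|
        split_ifs with h
        · exact h.trans (le_abs_self _)
        · simp
      · funext x
        have hx := hC j x
        rw [e, Function.comp_apply] at hx
        rw [e, Function.comp_apply, Function.comp_apply, if_pos hx]
    choose g hg hfg using h9
    have h10 := hstep hbase g hg
    have hpT : ∀ᵐ x ∂μ, (π (T x), τ (T x)) = sk S ψ (π x, τ x) := by
      filter_upwards [h1, h2] with x hx1 hx2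
      unfold sk
      simp only
      rw [hx1, hx2]
    have h11 : Cvg μ T (fun j => g j ∘ fun x => (π x, τ x)) :=
      (Cvg_factor (π := fun x => (π x, τ x)) hT hsk.measurable hmp hpT fun j => (hg j).1).2 h10
    have h12 : f = fun j => g j ∘ fun x => (π x, τ x) := funext hfg
    rw [h12]
    exact h11
  refine null_step hT (measurable_iff_comap_le.1 hp) h𝓒 (fun B hB => ?_) h8
  obtain ⟨C, hC, e⟩ := h5 B hB
  exact ⟨_, ⟨C, hC, rfl⟩, e⟩

end Pool.Agent.H4K
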